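import Pool.Agent.helper60.MW.Spec

/-! Row PLC of project MW (MP_f477b1): placement -/

set_option autoImplicit false

namespace Pool.Agent.MW

open MeasureTheory Set Pool.Agent.helper17.Worm

theorem PLC_mv (θ : ℝ) (v : ℂ) (n : ℤ) : mv (θ - n * (2 * Real.pi), v) = mv (θ, v) := by
  funext z
  unfold mv
  simp only
  have h1 : Complex.I * ((θ - n * (2 * Real.pi) : ℝ) : ℂ) =
      Complex.I * θ - n * (2 * Real.pi * Complex.I) := by
    push_cast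
    ring
  rw [h1, Complex.exp_sub, Complex.exp_int_mul_two_pi_mul_I, div_one]

/-- the arithmetic of one scale -/
theorem PLC_arith (κ η a W m : ℝ) (K L : ℕ) (hG : Good κ η a K L W) (hm : m ≤ 1 / (24 * a / η) + 1) :
    7 * K * (24 * a / η) + 2 * a ≤ W ∧ 7 * K * (24 * a / η) ≤ W ∧ 2 * a ≤ 24 * a / η ∧ a ≤ 1 / 1000 ∧
      m ≤ 1 / a ∧ 6 * m * a ≤ η := by
  obtain ⟨h1, h2, h3, h4, h5, h6, h7, h8, h9, h10⟩ := hG
  have ha' : 24 * a ≤ 24 * a / η := by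
    rw [le_div_iff₀ h3]
    nlinarith
  have hpos : 0 < 24 * a / η := by positivity
  have hK : (1 : ℝ) ≤ K := by exact_mod_cast h8
  have hK7 : 0 ≤ (K : ℝ) * (24 * a / η) := by positivity
  have hK8 : 24 * a / η ≤ (K : ℝ) * (24 * a / η) := le_mul_of_one_le_left hpos.le hK
  have h11 : 1 / (24 * a / η) = η / (24 * a) := by
    field_simp
  rw [h11] at hm
  have h12 : a ≤ 1 / 1000 := by linarith
  refine ⟨by linarith, by linarith, by linarith, h12, ?_, ?_⟩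
  · rw [le_div_iff₀ h5]
    have h13 : m * a ≤ (η / (24 * a) + 1) * a := mul_le_mul_of_nonneg_right hm h5.le
    have h14 : (η / (24 * a) + 1) * a = η / 24 + a := by
      field_simp
    linarith
  · have h13 : m * a ≤ (η / (24 * a) + 1) * a := mul_le_mul_of_nonneg_right hm h5.le
    have h14 : (η / (24 * a) + 1) * a = η / 24 + a := by
      field_simp
    nlinarith

theorem PLC (hLMA : LMA_stmt) (hNOD : NOD_stmt) (hDNS : DNS_stmt) : PLC_stmt := by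
  intro X hXo hXc hXv F ℓ R hF hF0 hℓ0 hℓ1 hfar J κ η a W K L hJ hsum
  have hXm : MeasurableSet X := hXo.measurableSet
  have hXf : volume X ≠ ⊤ := ne_top_of_le_ne_top ENNReal.one_ne_top hXv
  have hN : ∀ j : ℕ, ∃ N : Finset ℂ, j ∈ J → N.Nonempty ∧ (∀ n ∈ N, n ∈ F '' Icc 0 ℓ) ∧
      (∀ n ∈ N, ∀ n' ∈ N, n ≠ n' → 24 * a j / η j ≤ ‖n - n'‖) ∧
      (N.card : ℝ) ≤ 1 / (24 * a j / η j) + 1 ∧
      ∀ z ∈ F '' Icc 0 ℓ, ∃ T ⊆ N, 2 * K j ≤ T.card ∧ ∀ n ∈ T, ‖n - z‖ ≤ 7 * K j * (24 * a j / η j) := by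
    intro j
    by_cases hj : j ∈ J
    · obtain ⟨hG, hWR⟩ := hJ j hj
      have har := PLC_arith _ _ _ _ _ _ _ hG le_rfl
      obtain ⟨h1, h2, h3, h4, h5, h6, h7, h8, h9, h10⟩ := hG
      obtain ⟨N, hN⟩ := hNOD F ℓ R (24 * a j / η j) (K j) hF hℓ0 hℓ1 (by positivity) h8
        (har.2.1.trans hWR) hfar
      exact ⟨N, fun _ => hN⟩
    · exact ⟨∅, fun h => absurd h hj⟩
  choose N hN using hN
  have hnorm : ∀ n ∈ F '' Icc 0 ℓ, ‖n‖ ≤ 2 := by
    rintro _ ⟨t, ht, rfl⟩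
    have h1 := hF.dist_le_mul t 0
    rw [hF0, dist_zero_right, dist_zero_right, NNReal.coe_one, one_mul, Real.norm_eq_abs,
      abs_of_nonneg ht.1] at h1
    linarith [ht.2]
  have hcost : ∀ j ∈ J, 6 * ((N j).card : ℝ) * a j ≤ η j := fun j hj =>
    (PLC_arith _ _ _ _ _ _ _ (hJ j hj).1 (hN j hj).2.2.2.1).2.2.2.2.2
  obtain ⟨g, hg⟩ := hLMA X hXo hXc hXv ℓ (F '' Icc 0 ℓ) ⟨hℓ0, F, hF, Subset.rfl⟩ J N κ a K (by
    intro j hj
    obtain ⟨hne, hsub, hsep, hcard, -⟩ := hN j hj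
    have har := PLC_arith _ _ _ _ _ _ _ (hJ j hj).1 hcard
    obtain ⟨h1, h2, h3, h4, h5, h6, h7, h8, h9, h10⟩ := (hJ j hj).1
    refine ⟨h1, by linarith, h5, by linarith [har.2.2.2.1], hne, fun n hn => ⟨hsub n hn, hnorm n (hsub n hn)⟩, ?_⟩
    refine le_trans ?_ h9
    unfold KF
    have hm1 : (1 : ℝ) ≤ (N j).card := by exact_mod_cast hne.card_pos
    have hlog : Real.log (N j).card ≤ Real.log (1 / a j) :=
      Real.log_le_log (by linarith) har.2.2.2.2.1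
    refine mul_le_mul_of_nonneg_left ?_ (by positivity)
    linarith) (by
    have := Finset.sum_le_sum hcost
    linarith)
  have hmain : ∀ z ∈ F '' Icc 0 ℓ, ∀ j ∈ J, mv g z ∈ HH (den X (L j)) (L j) (κ j) (W j) (K j) := by
    intro z hz j hj
    obtain ⟨hne, hsub, hsep, hcard, hT⟩ := hN j hj
    have har := PLC_arith _ _ _ _ _ _ _ (hJ j hj).1 hcard
    obtain ⟨h1, h2, h3, h4, h5, h6, h7, h8, h9, h10⟩ := (hJ j hj).1
    obtain ⟨T, hTN, hTc, hTd⟩ := hT z hz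
    exact hDNS X hXm hXf g (N j) T (a j) (24 * a j / η j) (κ j) (7 * K j * (24 * a j / η j)) (W j) (L j) (K j) z
      h5 har.2.2.1 h1 (by linarith) h7 hsep (hg j hj) hTN hTc hTd har.1
  obtain ⟨θ, v⟩ := g
  set n : ℤ := ⌊θ / (2 * Real.pi)⌋ with hn
  have hpi : (0 : ℝ) < 2 * Real.pi := by positivity
  have hn1 : (n : ℝ) ≤ θ / (2 * Real.pi) := Int.floor_le _
  have hn2 : θ / (2 * Real.pi) < n + 1 := Int.lt_floor_add_one _
  rw [le_div_iff₀ hpi] at hn1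
  rw [div_lt_iff₀ hpi] at hn2
  refine ⟨(θ - n * (2 * Real.pi), v), ?_, ?_, ?_⟩
  · change 0 ≤ θ - n * (2 * Real.pi)
    linarith
  · change θ - n * (2 * Real.pi) ≤ 2 * Real.pi
    linarith
  · intro z hz j hj
    rw [PLC_mv]
    exact hmain z hz j hj

end Pool.Agent.MW
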